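import Pool.Agent.J4.H69.LFq

/-!
# Exactly `k` prime factors of `x² + 1` at the rational numbers `x` with denominator `l`, for every `k ≥ 3`

For almost all `l`: for every `X` between `l ^ ε` and `l ^ K` (`ε` arbitrarily small, `K` arbitrarily large) the number of the
rational numbers `0 < x ≤ X` with denominator `l` for which the numerator of `x² + 1` is the product of exactly `k` distinct
primes, all of them larger than `X ^ c`, is at least `c ∏_{p ∣ l, p ≡ 1 (mod 4)} p / (p - 2)` times the number of all these `x`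
divided by `log X`, for each `k ≥ 3`. For `x = m / l` the numerator is `m² + l²`.

Proof (`Pool.Agent.J4.H69`, on top of project GN): an asymptotic formula, on average over `l ≤ L`, for the numbers
`m² + l² = N(v a u b)` with `N(v)` a prime in `(M ^ (1 + δ / 4), M ^ (1 + δ / 2)]`, `N(a)` a prime in
`(M ^ τ, M ^ (5 τ / 4)]`, `u` a product of `k - 3` smaller primes, and `N(b)` prime, with weights. The function `Λ` of `ℤ[i]` for
`b` is replaced by its model `- ∑_{d ∣ b, N(d) ≤ D} μ(d) log N(d)`, which has the same sums in the residue classes to small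
moduli. The difference is estimated with the dispersion method for a general coefficient of the smaller variable (truncated to
be bounded); the prime `a` gives the cancellation in sectors narrower than those where primes can be counted, through Vinogradov's
bounds and the mean value theorem. The model is a sum of linear sums of level `L M ^ (1 - ε)` and gives the singular series.
-/

set_option autoImplicit false

namespace Pool.Agent.Results.MP_f1a94e_nt.ExactlyKPrimes

open Finset Filter Topology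

/-- The number of the rational numbers `0 < x ≤ X` with denominator `l` (in lowest terms). -/
noncomputable def total (l : ℕ) (X : ℝ) : ℕ := {x : ℚ | 0 < x ∧ (x : ℝ) ≤ X ∧ x.den = l}.ncard

/-- `n` is the product of exactly `k` distinct prime numbers, all of them greater than `Z`. -/
def IsProduct (k : ℕ) (Z : ℝ) (n : ℕ) : Prop :=
  ∃ P : Finset ℕ, P.card = k ∧ (∀ p ∈ P, p.Prime ∧ Z < p) ∧ n = ∏ p ∈ P, p

/-- The number of the rational numbers `0 < x ≤ X` with denominator `l` for which the numerator of `x² + 1` is the product of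
exactly `k` distinct prime numbers, all of them greater than `X ^ c`. For `l = 1` these are the positive integers `m ≤ X` for
which `m² + 1` is such a product. -/
noncomputable def count (k : ℕ) (c : ℝ) (l : ℕ) (X : ℝ) : ℕ :=
  {x : ℚ | 0 < x ∧ (x : ℝ) ≤ X ∧ x.den = l ∧ IsProduct k (X ^ c) (x ^ 2 + 1).num.natAbs}.ncard

/-- The product of `p / (p - 2)` over the primes `p ≡ 1 (mod 4)` dividing `l`. -/
noncomputable def factor (l : ℕ) : ℝ := ∏ p ∈ l.primeFactors with p % 4 = 1, (p : ℝ) / (p - 2)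

/-- The conclusion for the denominator `l`: for every real `X` from `l ^ ε` to `l ^ K`, the numerator of `x² + 1` is the product
of exactly `k` distinct primes, all greater than `X ^ c`, for at least `c factor(l) total / log X` of the rational numbers
`0 < x ≤ X` with denominator `l`. -/
def Good (k : ℕ) (c ε K : ℝ) (l : ℕ) : Prop :=
  ∀ X : ℝ, (l : ℝ) ^ ε ≤ X → X ≤ (l : ℝ) ^ K → c * factor l * total l X / Real.log X ≤ count k c l X

/-- For `x = m / l` in lowest terms the numerator of `x² + 1` is `l² + m²`. -/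
theorem num_eq (m l : ℕ) (hl : 0 < l) (hc : Nat.Coprime m l) :
    (((m : ℚ) / l) ^ 2 + 1).num = ((l ^ 2 + m ^ 2 : ℕ) : ℤ) := by
  have h1 : ((m : ℚ) / l) ^ 2 + 1 = (((l ^ 2 + m ^ 2 : ℕ) : ℤ) : ℚ) / (((l ^ 2 : ℕ) : ℤ) : ℚ) := by
    have : (l : ℚ) ≠ 0 := by exact_mod_cast hl.ne'
    push_cast
    field_simp
    ring
  rw [h1]
  apply Rat.num_div_eq_of_coprime
  · exact_mod_cast pow_pos hl 2
  · rw [Int.natAbs_natCast, Int.natAbs_natCast, Nat.coprime_self_add_left]
    exact Nat.Coprime.pow 2 2 hc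

theorem coprime_of_squarefree {m l : ℕ} (h : Squarefree (l ^ 2 + m ^ 2)) : Nat.Coprime m l := by
  by_contra hc
  obtain ⟨q, hq, hq1, hq2⟩ := Nat.Prime.not_coprime_iff_dvd.1 hc
  have h1 : q * q ∣ l ^ 2 + m ^ 2 := by
    rw [← sq]
    exact dvd_add (pow_dvd_pow_of_dvd hq2 2) (pow_dvd_pow_of_dvd hq1 2)
  exact hq.one_lt.ne' (Nat.isUnit_iff.1 (h q h1))

/-- The rational numbers with denominator `l` and the integers. -/
theorem ncard_eq (l : ℕ) (hl : 0 < l) (X : ℝ) (P : ℕ → Prop) [DecidablePred P] :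
    {x : ℚ | 0 < x ∧ (x : ℝ) ≤ X ∧ x.den = l ∧ P (x ^ 2 + 1).num.natAbs}.ncard =
      ((Icc 1 ⌊(l : ℝ) * X⌋₊).filter (fun m => Nat.Coprime m l ∧ P (l ^ 2 + m ^ 2))).card := by
  classical
  have hlR : (0 : ℝ) < l := by exact_mod_cast hl
  have hlQ : (0 : ℚ) < l := by exact_mod_cast hl
  have h1 : {x : ℚ | 0 < x ∧ (x : ℝ) ≤ X ∧ x.den = l ∧ P (x ^ 2 + 1).num.natAbs} =
      (fun m : ℕ => (m : ℚ) / l) ''
        (((Icc 1 ⌊(l : ℝ) * X⌋₊).filter (fun m => Nat.Coprime m l ∧ P (l ^ 2 + m ^ 2)) : Finset ℕ) : Set ℕ) := by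
    ext x
    simp only [Set.mem_ofPred_eq, Set.mem_image, coe_filter, mem_Icc]
    constructor
    · rintro ⟨h0, hX, hd, hp⟩
      have hn : 0 < x.num := Rat.num_pos.2 h0
      obtain ⟨m, hm⟩ : ∃ m : ℕ, x.num = m := ⟨x.num.toNat, (Int.toNat_of_nonneg hn.le).symm⟩
      have hx : x = (m : ℚ) / l := by
        conv_lhs => rw [← Rat.num_div_den x]
        rw [hm, hd]
        simp
      have hc : Nat.Coprime m l := by
        have := x.reduced
        rw [hm, hd, Int.natAbs_natCast] at this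
        exact this
      have hm0 : 1 ≤ m := by
        rw [hm] at hn
        exact_mod_cast hn
      refine ⟨m, ⟨⟨hm0, ?_⟩, hc, ?_⟩, hx.symm⟩
      · apply Nat.le_floor
        rw [hx] at hX
        push_cast at hX
        rw [div_le_iff₀ hlR] at hX
        linarith [mul_comm (l : ℝ) X]
      · rw [hx, num_eq m l hl hc, Int.natAbs_natCast] at hp
        exact hp
    · rintro ⟨m, ⟨⟨hm1, hm2⟩, hc, hp⟩, rfl⟩
      have hmQ : (0 : ℚ) < m := by exact_mod_cast hm1
      refine ⟨div_pos hmQ hlQ, ?_, ?_, ?_⟩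
      · push_cast
        rw [div_le_iff₀ hlR]
        have h2 := (Nat.le_floor_iff' (by omega)).1 hm2
        linarith [mul_comm (l : ℝ) X]
      · have h3 := Rat.den_div_eq_of_coprime (a := (m : ℤ)) (b := (l : ℤ)) (by exact_mod_cast hl)
          (by rw [Int.natAbs_natCast, Int.natAbs_natCast]; exact hc)
        have h4 : (((m : ℤ) : ℚ) / ((l : ℤ) : ℚ)).den = l := by exact_mod_cast h3
        simpa using h4
      · rw [num_eq m l hl hc, Int.natAbs_natCast]
        exact hp
  rw [h1, Set.ncard_image_of_injective, Set.ncard_coe_finset]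
  intro a b hab
  have h2 : (a : ℚ) / l = (b : ℚ) / l := hab
  rw [div_left_inj' hlQ.ne'] at h2
  exact_mod_cast h2

theorem total_le {l : ℕ} (hl : 0 < l) {X : ℝ} (hX : 1 ≤ X) : (total l X : ℝ) ≤ 2 * l.totient * X := by
  have hlR : (0 : ℝ) < l := by exact_mod_cast hl
  have h1 : total l X = ((Icc 1 ⌊(l : ℝ) * X⌋₊).filter (fun m => Nat.Coprime m l ∧ True)).card := by
    rw [← ncard_eq l hl X (fun _ => True)]
    unfold total
    simp
  have h2 : (Icc 1 ⌊(l : ℝ) * X⌋₊).filter (fun m => Nat.Coprime m l ∧ True) ⊆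
      (Ico 1 (1 + ⌊(l : ℝ) * X⌋₊)).filter (Nat.Coprime l) := by
    intro m hm
    rw [mem_filter, mem_Icc] at hm
    rw [mem_filter, mem_Ico]
    exact ⟨⟨hm.1.1, by omega⟩, hm.2.1.symm⟩
  have h3 := (card_le_card h2).trans (Nat.Ico_filter_coprime_le 1 ⌊(l : ℝ) * X⌋₊ hl.ne')
  rw [← h1] at h3
  have h4 : ((⌊(l : ℝ) * X⌋₊ / l : ℕ) : ℝ) ≤ X := by
    refine Nat.cast_div_le.trans ?_
    rw [div_le_iff₀ hlR]
    have := Nat.floor_le (show 0 ≤ (l : ℝ) * X by positivity)
    linarith
  have h5 : (total l X : ℝ) ≤ l.totient * ((⌊(l : ℝ) * X⌋₊ / l : ℕ) + 1 : ℝ) := by exact_mod_cast h3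
  have h6 : (0 : ℝ) ≤ l.totient := Nat.cast_nonneg _
  nlinarith

theorem isProduct_of_Pk {k : ℕ} {Z Z' : ℝ} (hZ : Z' ≤ Z) {n : ℕ} (h : Pool.Agent.J4.H69.Pk k Z n) : IsProduct k Z' n := by
  obtain ⟨h1, h2, h3⟩ := h
  have hn0 : n ≠ 0 := h1.ne_zero
  refine ⟨n.primeFactors, ?_, ?_, (Nat.prod_primeFactors_of_squarefree h1).symm⟩
  · rw [← h2, ← (ArithmeticFunction.cardDistinctFactors_eq_cardFactors_iff_squarefree hn0).2 h1,
      ArithmeticFunction.cardDistinctFactors_apply, ← List.card_toFinset, Nat.toFinset_factors]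
  · intro p hp
    have hpp := Nat.prime_of_mem_primeFactors hp
    exact ⟨hpp, lt_of_le_of_lt hZ (h3 p hpp (Nat.dvd_of_mem_primeFactors hp))⟩

theorem count_ge {k l : ℕ} {c Z X : ℝ} (hl : 0 < l) (hZ : X ^ c ≤ Z) :
    Pool.Agent.J4.H69.cntP k Z l ⌊(l : ℝ) * X⌋₊ ≤ count k c l X := by
  classical
  unfold count
  rw [ncard_eq l hl X (fun n => IsProduct k (X ^ c) n)]
  unfold Pool.Agent.J4.H69.cntP
  apply card_le_card
  intro m hm
  rw [mem_filter] at hm ⊢
  exact ⟨hm.1, coprime_of_squarefree hm.2.1, isProduct_of_Pk hZ hm.2⟩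

open Classical in
/-- **Exactly `k` prime factors.** Let `k ≥ 3`. For all `ε, K > 0` there is a `c > 0` such that for every `A` and all large
`L`, for all but at most `L / (log L) ^ A` of the `l ≤ L`: for every real `X` from `l ^ ε` to `l ^ K`, the numerator of `x² + 1`
is the product of exactly `k` distinct primes, all greater than `X ^ c`, for at least
`c / log X ∏_{p ∣ l, p ≡ 1 (mod 4)} p / (p - 2)` times the number of all the rational numbers `0 < x ≤ X` with denominator `l`. -/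
theorem result (k : ℕ) (hk : 3 ≤ k) (ε K : ℝ) (hε : 0 < ε) : ∃ c : ℝ, 0 < c ∧ ∀ A : ℕ, ∀ᶠ L : ℕ in atTop,
    (((Icc 1 L).filter (fun l => ¬ Good k c ε K l)).card : ℝ) ≤ L / (Real.log L) ^ A := by
  obtain ⟨i, rfl⟩ : ∃ i, k = i + 3 := ⟨k - 3, by omega⟩
  obtain ⟨c1, c1', hc1, hc1', h⟩ := Pool.Agent.J4.H69.allk i (ε := ε / 2) (K := 1 + K) (by positivity)
  refine ⟨min (c1 / (4 * (1 + 1 / ε))) c1', lt_min (by positivity) hc1', fun A => ?_⟩
  set c := min (c1 / (4 * (1 + 1 / ε))) c1' with hc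
  have hc0 : 0 < c := lt_min (by positivity) hc1'
  have hca : c ≤ c1 / (4 * (1 + 1 / ε)) := min_le_left _ _
  have hcb : c ≤ c1' := min_le_right _ _
  have h1 := h (A + 1)
  -- large `l`
  have h2 : ∀ᶠ l : ℕ in atTop, (2 : ℝ) ≤ (l : ℝ) ^ (ε / 2) :=
    ((tendsto_rpow_atTop (show 0 < ε / 2 by positivity)).comp tendsto_natCast_atTop_atTop).eventually_ge_atTop _
  rw [eventually_atTop] at h2
  obtain ⟨l0, h2⟩ := h2
  have h3 : ∀ᶠ M : ℝ in atTop, 2 ≤ Real.log M := Real.tendsto_log_atTop.eventually_ge_atTop _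
  have h4 := Pool.Agent.N855.GN.logpow A (show (0 : ℝ) < 1 by norm_num)
    (show (0 : ℝ) < 1 / (2 * (l0 + 2)) by positivity)
  have hcast := tendsto_natCast_atTop_atTop (R := ℝ)
  filter_upwards [h1, hcast.eventually h3, hcast.eventually h4, eventually_ge_atTop 3] with L h1 h3 h4 hL3
  have hL0 : (0 : ℝ) < L := by
    have : (3 : ℝ) ≤ L := by exact_mod_cast hL3
    linarith
  set y := Real.log (L : ℝ) with hy
  have hy0 : 0 < y := by linarith
  set B := (Icc 1 L).filter (fun l : ℕ => ¬ ∀ N : ℕ, (l : ℝ) ^ (1 + ε / 2) ≤ N → (N : ℝ) ≤ (l : ℝ) ^ (1 + K) →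
    Pool.Agent.J4.H69.Gk (i + 3) c1 c1' l N) with hB
  have hsub : (Icc 1 L).filter (fun l => ¬ Good (i + 3) c ε K l) ⊆ Icc 1 (l0 + 2) ∪ B := by
    intro l hl
    rw [mem_filter, mem_Icc] at hl
    obtain ⟨⟨hl1, hlL⟩, hbad⟩ := hl
    rw [mem_union]
    by_cases hsm : l ≤ l0 + 2
    · left
      rw [mem_Icc]
      exact ⟨hl1, hsm⟩
    right
    rw [hB, mem_filter, mem_Icc]
    refine ⟨⟨hl1, hlL⟩, fun hall => hbad ?_⟩
    intro X hX1 hX2
    have hl0 : l0 ≤ l := by omega
    have hl2 : 2 ≤ l := by omega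
    have hlR : (2 : ℝ) ≤ l := by exact_mod_cast hl2
    have hlp : (0 : ℝ) < l := by linarith
    have h2l := h2 l hl0
    have e1 : (2 : ℝ) ≤ (l : ℝ) ^ ε := by
      refine h2l.trans ?_
      apply Real.rpow_le_rpow_of_exponent_le (by linarith)
      linarith
    have hX2' : 2 ≤ X := e1.trans hX1
    have hX0 : 1 ≤ X := by linarith
    set N := ⌊(l : ℝ) * X⌋₊ with hN
    have e2 : (N : ℝ) ≤ (l : ℝ) * X := Nat.floor_le (by positivity)
    have e3 : (l : ℝ) * X < N + 1 := Nat.lt_floor_add_one _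
    have e4 : (l : ℝ) * X / 2 ≤ N := by nlinarith
    have e5 : (l : ℝ) ^ (1 + ε / 2) ≤ N := by
      refine le_trans ?_ e4
      have e6 : (l : ℝ) * (l : ℝ) ^ ε = (l : ℝ) ^ (1 + ε / 2) * (l : ℝ) ^ (ε / 2) := by
        rw [← Real.rpow_add hlp]
        conv_lhs => rw [← Real.rpow_one (l : ℝ)]
        rw [← Real.rpow_mul hlp.le, ← Real.rpow_add hlp]
        congr 1
        ring
      have e8 : (l : ℝ) ^ (1 + ε / 2) * 2 ≤ (l : ℝ) * X := by
        calc (l : ℝ) ^ (1 + ε / 2) * 2 ≤ (l : ℝ) ^ (1 + ε / 2) * (l : ℝ) ^ (ε / 2) := by gcongr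
          _ = (l : ℝ) * (l : ℝ) ^ ε := e6.symm
          _ ≤ (l : ℝ) * X := by gcongr
      linarith
    have e6 : (N : ℝ) ≤ (l : ℝ) ^ (1 + K) := by
      refine e2.trans ?_
      rw [Real.rpow_add hlp, Real.rpow_one]
      gcongr
    have hG := hall N e5 e6
    have ht := total_le (l := l) (by omega) hX0
    have hXN : X ≤ N := by nlinarith
    have hN2 : (2 : ℝ) ≤ N := hX2'.trans hXN
    have hZ : X ^ c ≤ (N : ℝ) ^ c1' := by
      calc X ^ c ≤ (N : ℝ) ^ c := Real.rpow_le_rpow (by linarith) hXN hc0.le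
        _ ≤ (N : ℝ) ^ c1' := Real.rpow_le_rpow_of_exponent_le (by linarith) hcb
    have hcnt : (Pool.Agent.J4.H69.cntP (i + 3) ((N : ℝ) ^ c1') l N : ℝ) ≤ count (i + 3) c l X := by
      exact_mod_cast count_ge (by omega) hZ
    refine le_trans ?_ hcnt
    unfold Pool.Agent.J4.H69.Gk at hG
    refine le_trans ?_ hG
    have hfac : factor l = Pool.Agent.J4.H69.fac l := rfl
    have hfac1 := Pool.Agent.J4.H69.fac_ge l
    rw [← hfac] at hfac1 ⊢
    have hlogX : 0 < Real.log X := Real.log_pos (by linarith)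
    have hlogN : 0 < Real.log N := Real.log_pos (by linarith)
    have hlogl : Real.log l ≤ 1 / ε * Real.log X := by
      have h5 := Real.log_le_log (by positivity) hX1
      rw [Real.log_rpow hlp] at h5
      rw [div_mul_eq_mul_div, one_mul, le_div_iff₀ hε]
      linarith
    have hlog : Real.log N ≤ (1 + 1 / ε) * Real.log X := by
      have h5 := Real.log_le_log (by linarith) e2
      rw [Real.log_mul (by positivity) (by positivity)] at h5
      linarith
    have hphi : (0 : ℝ) ≤ (l.totient : ℝ) := Nat.cast_nonneg _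
    calc c * factor l * (total l X : ℝ) / Real.log X ≤
          c1 / (4 * (1 + 1 / ε)) * factor l * (2 * l.totient * X) / Real.log X := by gcongr
      _ = c1 * (((l.totient : ℝ) / l) * factor l) * ((l : ℝ) * X / 2) / ((1 + 1 / ε) * Real.log X) := by
          field_simp
          ring
      _ ≤ c1 * (((l.totient : ℝ) / l) * factor l) * N / Real.log N := by gcongr
  have h5 := (card_le_card hsub).trans (card_union_le _ _)
  rw [Nat.card_Icc, Nat.add_sub_cancel] at h5
  have h6 : (((Icc 1 L).filter (fun l => ¬ Good (i + 3) c ε K l)).card : ℝ) ≤ ((l0 + 2 : ℕ) : ℝ) + (B.card : ℝ) := by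
    exact_mod_cast h5
  have h7 : ((l0 + 2 : ℕ) : ℝ) ≤ L / y ^ A / 2 := by
    rw [Real.rpow_one] at h4
    push_cast
    rw [div_div, le_div_iff₀ (by positivity)]
    have h8 : y ^ A * (2 * (l0 + 2)) ≤ L := by
      rw [div_mul_eq_mul_div, one_mul, le_div_iff₀ (by positivity)] at h4
      exact h4
    linarith
  have h8 : (B.card : ℝ) ≤ L / y ^ A / 2 := by
    refine h1.trans ?_
    rw [pow_succ, div_div]
    apply div_le_div_of_nonneg_left hL0.le (by positivity)
    gcongr
  linarith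

end Pool.Agent.Results.MP_f1a94e_nt.ExactlyKPrimes
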