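import Pool.Agent.J4.H74.TC.B
import Pool.Agent.R482.ST.Dens

/-!
# The asymptotic formula of Hardy and Littlewood for the primes `|n² + a|`, `a` near a power of almost every real
number or near a denominator of a convergent of almost every real number

The formula is proved with its constant `h_a` (the convergent product over the odd primes; `h_1` is the constant `C`
of the problem) and with a relative error, for all `y` from `√|a| / (log |a|)^A` to `√|a| (log |a|)^A`, for every
`A`, for all but finitely many of the following integers `a`, of both signs: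

1. `|a|` is one of the denominators of the convergents of `ξ`, for almost every real number `ξ`;
2. `‖a α_i‖ ≤ c |a|^(-1/k)` for `1 ≤ i ≤ k`, `c` arbitrary, for almost every `α ∈ ℝ^k` (infinitely many by
   Dirichlet's theorem);
3. ALL integers `a` with `||a| - x^(v_n)| ≤ v_n^B`, `B` arbitrary, for almost every `x > 1`, where `v_n ≥ 1` are
   given exponents such that the sum of the `v_n^(-t)` converges for some `t`, for instance `v_n = n` or
   `v_n = n^δ`, `δ > 0`.

The starting theorem `FullConstantInClasses` (for the problem `MP_391708_nt`) gives the formula, with an error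
`√X / (log X)^C`, for all but `X / (log X)^A` of the `|a| ≤ X`, at the scale `X`; the sets of constants above are
very thin. A lower bound `1 / (4 log |a|)` for the constant `h_a` is proved here for almost all `a`, the formula is
used at the scales `|a| (log |a|)^(2A)`, the exceptions are counted over all scales (`Dyad.dyadic_count`), and almost
every number avoids them by the theorems of Borel–Cantelli type `Pool.Agent.N220.CF.finitely_usual` and
`Pool.Agent.R482.ST.pow_log_windows`.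
-/

set_option autoImplicit false

namespace Pool.Agent.Results.MP_f1a94e_nt.TypicalConstants

open Finset Filter Topology MeasureTheory

/-- The product which defines `h_a`, over the odd primes `p ≤ z` (`jacobiSym (-a) p` is the Legendre symbol). -/
noncomputable def product (a : ℤ) (z : ℕ) : ℝ :=
  ∏ p ∈ (Icc 3 z).filter Nat.Prime, (1 - (jacobiSym (-a) p : ℝ) / ((p : ℝ) - 1))

/-- `H = h_a`: the product over the odd primes, in increasing order, converges to `H`. -/
def IsConstant (a : ℤ) (H : ℝ) : Prop := Tendsto (product a) atTop (𝓝 H)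

/-- The sum of `log |n² + a|` over the `n`, `1 ≤ n ≤ y`, for which `|n² + a|` is prime. -/
noncomputable def theta (a : ℤ) (y : ℕ) : ℝ :=
  ∑ n ∈ Icc 1 y, if ((n : ℤ) ^ 2 + a).natAbs.Prime then Real.log (((n : ℤ) ^ 2 + a).natAbs : ℝ) else 0

/-- The asymptotic formula of Hardy and Littlewood for the primes `|n² + a|`, `n ≤ y`, for all `y` which are equal to
`√|a|` up to a factor `(log |a|)^A`: the product `h_a` converges, it is at least `1 / (4 log |a|)`, and
`theta a y = h_a y (1 + θ / (log |a|)^A)`, `|θ| ≤ 1`. -/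
def Formula (A : ℕ) (a : ℤ) : Prop :=
  ∃ H : ℝ, IsConstant a H ∧ 1 / (4 * Real.log |(a : ℝ)|) ≤ H ∧
    ∀ y : ℕ, Real.sqrt |(a : ℝ)| / Real.log |(a : ℝ)| ^ A ≤ y → y ≤ Real.sqrt |(a : ℝ)| * Real.log |(a : ℝ)| ^ A →
      |theta a y - H * y| ≤ H * y / Real.log |(a : ℝ)| ^ A

/-- `‖q α_i‖ ≤ c q^(-1/k)` for all `i` -/
def Approximates {k : ℕ} (c : ℝ) (α : Fin k → ℝ) (q : ℕ) : Prop :=
  1 ≤ q ∧ ∃ p : Fin k → ℤ, ∀ i, |(q : ℝ) * α i - (p i : ℝ)| ≤ c * (q : ℝ) ^ (-(1 / (k : ℝ)))

/-- **The formula of Hardy and Littlewood for `n² + a` with typical constants `a`.** For all `A` the asymptotic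
formula holds for all but finitely many of the integers `a`

(1) `± q` with `‖q α_i‖ ≤ c q^(-1/k)`, `1 ≤ i ≤ k`, for almost all `α ∈ ℝ^k` and all `c`;

(2) `± q`, `q` a denominator of a convergent of `ξ`, for almost every real number `ξ`;

(3) with `||a| - x^(v_n)| ≤ v_n^B`, for almost all real `x > 1` and all `B`; here `v_n ≥ 1` and the sum of the
`v_n^(-t)` converges for some `t > 0`. -/
theorem result :
    (∀ k : ℕ, 1 ≤ k → ∀ᵐ α : Fin k → ℝ, ∀ (A : ℕ) (c : ℝ),
      {q : ℕ | Approximates c α q ∧ ¬ (Formula A q ∧ Formula A (-(q : ℤ)))}.Finite) ∧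
    (∀ᵐ ξ : ℝ, ∀ A : ℕ, ∀ᶠ n : ℕ in atTop,
      Formula A (ξ.convergent n).den ∧ Formula A (-((ξ.convergent n).den : ℤ))) ∧
    ∀ v : ℕ → ℝ, (∀ n, 1 ≤ v n) → ∀ t : ℝ, 0 < t → (Summable fun n => (v n) ^ (-t)) →
      ∀ᵐ x : ℝ, 1 < x → ∀ (A : ℕ) (B : ℝ), ∃ n₀ : ℕ, ∀ n : ℕ, n₀ ≤ n →
        ∀ a : ℤ, |(|(a : ℝ)| - x ^ (v n))| ≤ (v n) ^ B → Formula A a := by
  classical
  have hF : ∀ (A : ℕ) (a : ℤ), Pool.Agent.J4.H74.TC.Formula A a ↔ Formula A a := fun _ _ => Iff.rfl
  obtain ⟨W, hW⟩ : ∃ W : ℕ → Set ℕ, ∀ A m, m ∈ W A ↔ ∃ a : ℤ, a.natAbs = m ∧ ¬ Formula A a :=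
    ⟨fun A => {m : ℕ | ∃ a : ℤ, a.natAbs = m ∧ ¬ Formula A a}, fun A m => Iff.rfl⟩
  have hcount : ∀ A U : ℕ, ∃ X₀ : ℕ, ∀ X : ℕ, X₀ ≤ X →
      (((Icc 1 X).filter (fun l => l ∈ W A)).card : ℝ) ≤ X / (Real.log X) ^ U := by
    intro A U
    refine Pool.Agent.J4.H74.TC.count_bad A U (W A) ?_
    intro m hm
    obtain ⟨a, ha, hna⟩ := (hW A m).1 hm
    exact ⟨a, ha, fun h => hna ((hF A a).1 h)⟩
  have hall : ∀ A : ℕ, Pool.Agent.N220.CF.FinitelyMet (W A) := fun A =>
    Pool.Agent.N220.CF.finitely_usual _ (U := 2) le_rfl (hcount A 2)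
  refine ⟨fun k hk => ?_, ?_, fun v hv t ht hvt => ?_⟩
  · have h1 : ∀ᵐ α : Fin k → ℝ, ∀ A : ℕ, ∀ c : ℝ,
        {q : ℕ | Pool.Agent.N220.CF.Approx c (1 / k) α q ∧ q ∈ W A}.Finite :=
      ae_all_iff.2 fun A => (hall A).1 k hk
    filter_upwards [h1] with α hα A c
    refine (hα A c).subset ?_
    rintro q ⟨h2, h3⟩
    refine ⟨h2, (hW A q).2 ?_⟩
    by_contra hcon
    push Not at hcon
    exact h3 ⟨hcon q (Int.natAbs_natCast q), hcon (-(q : ℤ)) (by rw [Int.natAbs_neg, Int.natAbs_natCast])⟩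
  · have h1 : ∀ᵐ ξ : ℝ, ∀ A : ℕ, ∀ᶠ n : ℕ in atTop, (ξ.convergent n).den ∉ W A :=
      ae_all_iff.2 fun A => (hall A).2
    filter_upwards [h1] with ξ hξ A
    filter_upwards [hξ A] with n hn
    constructor
    · by_contra hcon
      exact hn ((hW A _).2 ⟨((ξ.convergent n).den : ℤ), Int.natAbs_natCast _, hcon⟩)
    · by_contra hcon
      exact hn ((hW A _).2 ⟨-((ξ.convergent n).den : ℤ), by rw [Int.natAbs_neg, Int.natAbs_natCast], hcon⟩)
  · have h1 : ∀ᵐ x : ℝ, ∀ A : ℕ, 1 < x → ∀ B : ℝ, ∃ n₀ : ℕ, ∀ n : ℕ, n₀ ≤ n →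
        ∀ s ∈ W A, (v n) ^ B < |(s : ℝ) - x ^ (v n)| := by
      refine ae_all_iff.2 fun A => ?_
      obtain ⟨N, hN0, hN⟩ := Pool.Agent.R482.ST.pow_log_windows (W A) (fun s : ℕ => (s : ℝ)) hv hvt ht (by
          intro b hb
          obtain ⟨U, hU⟩ := exists_nat_ge b
          obtain ⟨X₀, hX₀⟩ := hcount A U
          refine Pool.Agent.R482.ST.log_count _ b hb ⟨max X₀ 3, fun X hX => ?_⟩
          have hX3 : (3 : ℝ) ≤ X := by exact_mod_cast (le_max_right _ _).trans hX
          have hlog : 1 ≤ Real.log X := by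
            rw [Real.le_log_iff_exp_le (by linarith)]
            have := Real.exp_one_lt_d9
            linarith
          refine (hX₀ X ((le_max_left _ _).trans hX)).trans ?_
          refine div_le_div_of_nonneg_left (by positivity) (by positivity) ?_
          rw [← Real.rpow_natCast]
          exact Real.rpow_le_rpow_of_exponent_le hlog hU)
      have h2 : ∀ᵐ x : ℝ, x ∉ N := measure_eq_zero_iff_ae_notMem.1 hN0
      filter_upwards [h2] with x hx hx1
      exact hN x hx1 hx
    filter_upwards [h1] with x hx hx1 A B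
    obtain ⟨n₀, hn₀⟩ := hx A hx1 B
    refine ⟨n₀, fun n hn a ha => ?_⟩
    by_contra hcon
    have h2 := hn₀ n hn a.natAbs ((hW A _).2 ⟨a, rfl, hcon⟩)
    rw [Nat.cast_natAbs, Int.cast_abs] at h2
    exact absurd ha (not_le.2 h2)

end Pool.Agent.Results.MP_f1a94e_nt.TypicalConstants
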