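import Pool.Agent.J4.H74.Dyad
import Pool.Agent.Results.MP_f1a94e_nt.RationalArguments
import Pool.Agent.R482.ST.Dens

/-!
# The Hardy–Littlewood formula for `x² + 1` at the rational numbers whose denominator is a denominator of a
convergent of almost every real number, or an integer near a power of almost every real number

The formula of Hardy and Littlewood for a denominator `l` says how many rational numbers `0 < x ≤ X` with
denominator `l` (in lowest terms) have a prime numerator of `x² + 1`, that is for how many natural numbers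
`m ≤ l X` the number `l² + m²` is a prime: the number is
`(1/2) C factor(l) ∫_2^(l X) dt / log t + O(l X / (log l)^A)`, `C` the constant of the problem. It is proved
here for all `X` between `l^ε` and `l^(1/2 - ε)`, for every `ε > 0` and `A`, for all but finitely many of the
following denominators `l`:

1. the denominators of the convergents of `ξ`, for almost every real number `ξ`;
2. all natural numbers `l` with `‖l α_i‖ ≤ c l^(-1/k)` for `1 ≤ i ≤ k`, `c` arbitrary, for almost every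
   `α ∈ ℝ^k` (infinitely many by Dirichlet's theorem);
3. ALL natural numbers `l` with `|l - x^(v_n)| ≤ v_n^B`, `B` arbitrary, for almost every `x > 1`, where `v_n ≥ 1`
   are given exponents such that the sum of the `v_n^(-t)` converges for some `t`, for instance `v_n = n` or
   `v_n = n^δ`, `δ > 0`.

The starting theorem `RationalArguments` gives the formula for almost all `l ≤ L` at the scale `L`; the sets
of denominators above are very thin. The exceptions are counted over all scales (`Dyad.dyadic_count`), and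
almost every number avoids them by the theorems of Borel–Cantelli type `Pool.Agent.N220.CF.finitely_usual`
and `Pool.Agent.R482.ST.pow_log_windows`.
-/

set_option autoImplicit false

namespace Pool.Agent.Results.MP_f1a94e_nt.TypicalDenominators

open Finset Filter Topology MeasureTheory
open Pool.Agent.Results.MP_f1a94e_nt.RationalArguments (partialC factor count exceptions Good)

/-- The formula of Hardy and Littlewood for the denominator `l`: for all real `X` from `l ^ ε` to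
`l ^ (1 / 2 - ε)` the number `count l X` of the rational numbers `0 < x ≤ X` with denominator `l` for which
the numerator of `x² + 1` is a prime satisfies
`|count l X - (1 / 2) C (factor l) ∫_2^(l X) dt / log t| ≤ l X / (log l) ^ A`. -/
def Formula (C ε : ℝ) (A : ℕ) (l : ℕ) : Prop :=
  ∀ X : ℝ, (l : ℝ) ^ ε ≤ X → X ≤ (l : ℝ) ^ (1 / 2 - ε) →
    |(count l X : ℝ) - 1 / 2 * (C * factor l) * ∫ t in (2 : ℝ)..(l * X), 1 / Real.log t| ≤
      l * X / Real.log l ^ A

/-- `‖l α_i‖ ≤ c l^(-1/k)` for all `i` -/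
def Approximates {k : ℕ} (c : ℝ) (α : Fin k → ℝ) (l : ℕ) : Prop :=
  1 ≤ l ∧ ∃ p : Fin k → ℤ, ∀ i, |(l : ℝ) * α i - (p i : ℝ)| ≤ c * (l : ℝ) ^ (-(1 / (k : ℝ)))

lemma formula_of_good {C ε : ℝ} {A A' l : ℕ} (hε : 0 < ε) (hε1 : ε ≤ 1 / 4) (hA : A ≤ A') (hl : 2 ≤ l)
    (h : Good C (ε / 2) A' ((2 ^ (Nat.log 2 l + 1) : ℕ) : ℝ) l) : Formula C ε A l := by
  intro X hX1 hX2
  have hl2 : (2 : ℝ) ≤ l := by exact_mod_cast hl
  have hl0 : (0 : ℝ) < l := by linarith
  have hL1 : (l : ℝ) ≤ ((2 ^ (Nat.log 2 l + 1) : ℕ) : ℝ) := by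
    exact_mod_cast (Nat.lt_pow_succ_log_self (b := 2) (by norm_num) l).le
  have hL2 : ((2 ^ (Nat.log 2 l + 1) : ℕ) : ℝ) ≤ 2 * l := by
    have h1 : 2 ^ (Nat.log 2 l) ≤ l := Nat.pow_log_le_self 2 (by omega)
    have h2 : 2 ^ (Nat.log 2 l + 1) ≤ 2 * l := by
      rw [pow_succ]
      omega
    exact_mod_cast h2
  have hL4 : (4 : ℝ) ≤ ((2 ^ (Nat.log 2 l + 1) : ℕ) : ℝ) := by
    have h1 : 1 ≤ Nat.log 2 l := Nat.le_log_of_pow_le (by norm_num) (by omega)
    have h2 : 2 ^ 2 ≤ 2 ^ (Nat.log 2 l + 1) := Nat.pow_le_pow_right (by norm_num) (by omega)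
    exact_mod_cast h2
  set L : ℝ := ((2 ^ (Nat.log 2 l + 1) : ℕ) : ℝ) with hL
  have hX0 : 0 < X := (Real.rpow_pos_of_pos hl0 ε).trans_le hX1
  have h1 : L ^ (ε / 2) ≤ X := by
    refine le_trans ?_ hX1
    calc L ^ (ε / 2) ≤ ((l : ℝ) ^ (2 : ℝ)) ^ (ε / 2) := by
          refine Real.rpow_le_rpow (by linarith) ?_ (by positivity)
          rw [show (2 : ℝ) = ((2 : ℕ) : ℝ) by norm_num, Real.rpow_natCast]
          nlinarith
      _ = (l : ℝ) ^ ε := by
          rw [← Real.rpow_mul hl0.le]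
          congr 1
          ring
  have h2 : X ≤ L ^ (1 / 2 - ε / 2) := by
    refine hX2.trans ?_
    calc (l : ℝ) ^ (1 / 2 - ε) ≤ (l : ℝ) ^ (1 / 2 - ε / 2) :=
          Real.rpow_le_rpow_of_exponent_le (by linarith) (by linarith)
      _ ≤ L ^ (1 / 2 - ε / 2) := Real.rpow_le_rpow hl0.le hL1 (by linarith)
  refine (h X h1 h2).trans ?_
  have h3 : 0 < Real.log l := Real.log_pos (by linarith)
  have h4 : Real.log l ≤ Real.log L := Real.log_le_log hl0 hL1
  have h5 : 1 ≤ Real.log L := by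
    rw [Real.le_log_iff_exp_le (by linarith)]
    have := Real.exp_one_lt_d9
    linarith
  have h6 : Real.log l ^ A ≤ Real.log L ^ A' :=
    (pow_le_pow_left₀ h3.le h4 A).trans (pow_le_pow_right₀ h5 hA)
  exact div_le_div_of_nonneg_left (by positivity) (by positivity) h6

open Classical in
/-- the number of the exceptions, all scales -/
lemma count_bad {C : ℝ} (hC : ∀ (ε : ℝ) (A : ℕ), 0 < ε → ∃ L₀ : ℝ, ∀ L : ℝ, L₀ ≤ L →
      (exceptions C ε A L : ℝ) ≤ L / Real.log L ^ A) {ε : ℝ} (hε : 0 < ε) (hε1 : ε ≤ 1 / 4) (A U : ℕ)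
    (V : Set ℕ) (hV : ∀ l ∈ V, ¬ Formula C ε A l) :
    ∃ X₀ : ℕ, ∀ X : ℕ, X₀ ≤ X →
      (((Icc 1 X).filter (fun l => l ∈ V)).card : ℝ) ≤ X / (Real.log X) ^ U := by
  obtain ⟨S, hS⟩ : ∃ S : ℕ → Set ℕ, ∀ X l, l ∈ S X ↔ ¬ Good C (ε / 2) (max A (U + 1)) (X : ℝ) l :=
    ⟨fun X => {l : ℕ | ¬ Good C (ε / 2) (max A (U + 1)) (X : ℝ) l}, fun X l => Iff.rfl⟩
  refine Pool.Agent.J4.H74.Dyad.dyadic_count S V U ?_ ?_
  · obtain ⟨L₀, hL₀⟩ := hC (ε / 2) (max A (U + 1)) (by positivity)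
    refine ⟨max ⌈L₀⌉₊ 3, fun X hX => ?_⟩
    have hX1 : L₀ ≤ X := (Nat.le_ceil L₀).trans (by exact_mod_cast (le_max_left _ _).trans hX)
    have hX3 : (3 : ℝ) ≤ X := by exact_mod_cast (le_max_right _ _).trans hX
    have h1 := hL₀ X hX1
    unfold exceptions at h1
    rw [Nat.floor_natCast] at h1
    have hlog : 1 ≤ Real.log X := by
      rw [Real.le_log_iff_exp_le (by linarith)]
      have := Real.exp_one_lt_d9
      linarith
    have h2 : (X : ℝ) / Real.log X ^ (max A (U + 1)) ≤ X / Real.log X ^ (U + 1) :=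
      div_le_div_of_nonneg_left (by positivity) (by positivity)
        (pow_le_pow_right₀ hlog (le_max_right _ _))
    refine le_trans (Nat.cast_le.2 (card_le_card ?_)) (h1.trans h2)
    intro l hl
    rw [mem_filter] at hl ⊢
    exact ⟨hl.1, (hS X l).1 hl.2⟩
  · refine ⟨2, fun l hl hl2 => ?_⟩
    rw [hS]
    intro hgood
    exact hV l hl (formula_of_good hε hε1 (le_max_left _ _) hl2 hgood)

lemma Formula.mono {C ε ε' : ℝ} {A l : ℕ} (h : Formula C ε A l) (hε : ε ≤ ε') (hl : 1 ≤ l) :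
    Formula C ε' A l := by
  intro X hX1 hX2
  have hl1 : (1 : ℝ) ≤ l := by exact_mod_cast hl
  exact h X ((Real.rpow_le_rpow_of_exponent_le hl1 hε).trans hX1)
    (hX2.trans (Real.rpow_le_rpow_of_exponent_le hl1 (by linarith)))

/-- **The formula of Hardy and Littlewood for `x² + 1` at the rational numbers with typical denominators.** The
product `C` of the problem converges to a positive number, and the formula with this constant holds, for all
`ε > 0` and `A`, for all but finitely many of the denominators `l`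

(1) with `‖l α_i‖ ≤ c l^(-1/k)`, `1 ≤ i ≤ k`, for almost all `α ∈ ℝ^k` and all `c`;

(2) of the convergents of almost every real number `ξ`;

(3) with `|l - x^(v_n)| ≤ v_n^B`, for almost all real `x > 1` and all `B`; here `v_n ≥ 1` and the sum of the
`v_n^(-t)` converges for some `t > 0`. -/
theorem result : ∃ C : ℝ, 0 < C ∧ Tendsto partialC atTop (𝓝 C) ∧
    (∀ k : ℕ, 1 ≤ k → ∀ᵐ α : Fin k → ℝ, ∀ (ε : ℝ) (A : ℕ) (c : ℝ), 0 < ε →
      {l : ℕ | Approximates c α l ∧ ¬ Formula C ε A l}.Finite) ∧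
    (∀ᵐ ξ : ℝ, ∀ (ε : ℝ) (A : ℕ), 0 < ε → ∀ᶠ n : ℕ in atTop, Formula C ε A (ξ.convergent n).den) ∧
    ∀ v : ℕ → ℝ, (∀ n, 1 ≤ v n) → ∀ t : ℝ, 0 < t → (Summable fun n => (v n) ^ (-t)) →
      ∀ᵐ x : ℝ, 1 < x → ∀ (ε : ℝ) (A : ℕ) (B : ℝ), 0 < ε → ∃ n₀ : ℕ, ∀ n : ℕ, n₀ ≤ n →
        ∀ l : ℕ, |(l : ℝ) - x ^ (v n)| ≤ (v n) ^ B → 1 ≤ l → Formula C ε A l := by
  classical
  obtain ⟨C, hC0, hC1, hC⟩ := Pool.Agent.Results.MP_f1a94e_nt.RationalArguments.result
  refine ⟨C, hC0, hC1, ?_⟩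
  have hj : ∀ j : ℕ, (0 : ℝ) < 1 / ((j : ℝ) + 4) ∧ 1 / ((j : ℝ) + 4) ≤ 1 / 4 := by
    intro j
    refine ⟨by positivity, ?_⟩
    apply one_div_le_one_div_of_le (by norm_num)
    have : (0 : ℝ) ≤ j := Nat.cast_nonneg j
    linarith
  have hsmall : ∀ ε : ℝ, 0 < ε → ∃ j : ℕ, 1 / ((j : ℝ) + 4) ≤ ε := by
    intro ε hε
    obtain ⟨j, hj⟩ := exists_nat_one_div_lt hε
    refine ⟨j, le_trans ?_ hj.le⟩
    apply one_div_le_one_div_of_le (by positivity)
    linarith
  have hall : ∀ p : ℕ × ℕ, Pool.Agent.N220.CF.FinitelyMet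
      {l : ℕ | ¬ Formula C (1 / ((p.1 : ℝ) + 4)) p.2 l} := fun p =>
    Pool.Agent.N220.CF.finitely_usual _ (U := 2) le_rfl
      (count_bad hC (hj p.1).1 (hj p.1).2 p.2 2 _ fun _ h => h)
  refine ⟨fun k hk => ?_, ?_, fun v hv t ht hvt => ?_⟩
  · have h1 : ∀ᵐ α : Fin k → ℝ, ∀ p : ℕ × ℕ, ∀ c : ℝ,
        {q : ℕ | Pool.Agent.N220.CF.Approx c (1 / k) α q ∧
          q ∈ {l : ℕ | ¬ Formula C (1 / ((p.1 : ℝ) + 4)) p.2 l}}.Finite :=
      ae_all_iff.2 fun p => (hall p).1 k hk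
    filter_upwards [h1] with α hα ε A c hε
    obtain ⟨j, hjε⟩ := hsmall ε hε
    refine (hα (j, A) c).subset ?_
    rintro l ⟨h2, h3⟩
    exact ⟨h2, fun h4 => h3 (h4.mono hjε h2.1)⟩
  · have h1 : ∀ᵐ ξ : ℝ, ∀ p : ℕ × ℕ, ∀ᶠ n : ℕ in atTop,
        (ξ.convergent n).den ∉ {l : ℕ | ¬ Formula C (1 / ((p.1 : ℝ) + 4)) p.2 l} :=
      ae_all_iff.2 fun p => (hall p).2
    filter_upwards [h1] with ξ hξ ε A hε
    obtain ⟨j, hjε⟩ := hsmall ε hε
    filter_upwards [hξ (j, A)] with n hn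
    have h2 : Formula C (1 / ((j : ℝ) + 4)) A (ξ.convergent n).den := by
      by_contra hcon
      exact hn hcon
    exact h2.mono hjε (ξ.convergent n).den_pos
  · have h1 : ∀ᵐ x : ℝ, ∀ p : ℕ × ℕ, 1 < x → ∀ B : ℝ, ∃ n₀ : ℕ, ∀ n : ℕ, n₀ ≤ n →
        ∀ s ∈ {l : ℕ | ¬ Formula C (1 / ((p.1 : ℝ) + 4)) p.2 l}, (v n) ^ B < |(s : ℝ) - x ^ (v n)| := by
      refine ae_all_iff.2 fun p => ?_
      obtain ⟨N, hN0, hN⟩ := Pool.Agent.R482.ST.pow_log_windows
        {l : ℕ | ¬ Formula C (1 / ((p.1 : ℝ) + 4)) p.2 l} (fun s : ℕ => (s : ℝ)) hv hvt ht (by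
          intro b hb
          obtain ⟨U, hU⟩ := exists_nat_ge b
          obtain ⟨X₀, hX₀⟩ := count_bad hC (hj p.1).1 (hj p.1).2 p.2 U
            {l : ℕ | ¬ Formula C (1 / ((p.1 : ℝ) + 4)) p.2 l} fun _ h => h
          refine Pool.Agent.R482.ST.log_count _ b hb ⟨max X₀ 3, fun X hX => ?_⟩
          have hX3 : (3 : ℝ) ≤ X := by exact_mod_cast (le_max_right _ _).trans hX
          have hlog : 1 ≤ Real.log X := by
            rw [Real.le_log_iff_exp_le (by linarith)]
            have := Real.exp_one_lt_d9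
            linarith
          refine (hX₀ X ((le_max_left _ _).trans hX)).trans ?_
          refine div_le_div_of_nonneg_left (by positivity) (by positivity) ?_
          rw [← Real.rpow_natCast]
          exact Real.rpow_le_rpow_of_exponent_le hlog hU)
      have h2 : ∀ᵐ x : ℝ, x ∉ N := measure_eq_zero_iff_ae_notMem.1 hN0
      filter_upwards [h2] with x hx hx1
      exact hN x hx1 hx
    filter_upwards [h1] with x hx hx1 ε A B hε
    obtain ⟨j, hjε⟩ := hsmall ε hε
    obtain ⟨n₀, hn₀⟩ := hx (j, A) hx1 B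
    refine ⟨n₀, fun n hn l hl hl1 => ?_⟩
    have h2 : Formula C (1 / ((j : ℝ) + 4)) A l := by
      by_contra hcon
      exact absurd hl (not_le.2 (hn₀ n hn l hcon))
    exact h2.mono hjε hl1

end Pool.Agent.Results.MP_f1a94e_nt.TypicalDenominators
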